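import Pool.Agent.H.MP_b41085_nt.C

namespace Pool.Agent.Results.MP_b41085_nt.Q1
open Finset Filter Topology

/-- Sum of the cubes of the trinomial coefficients n!/(i! j! (n-i-j)!). -/
noncomputable def S (n : ℕ) : ℝ :=
  ∑ i ∈ range (n+1), ∑ j ∈ range (n-i+1),
    ((n.factorial : ℝ) / ((i.factorial : ℝ) * (j.factorial : ℝ) * ((n-i-j).factorial : ℝ)))^3

noncomputable def a (n : ℕ) : ℝ := S (n+1) / S n

theorem result : StrictMono a ∧ Tendsto a atTop (𝓝 27) :=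
  ⟨Pool.Agent.H.MP_b41085_nt.a_mono, Pool.Agent.H.MP_b41085_nt.a_tend⟩

end Pool.Agent.Results.MP_b41085_nt.Q1
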